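import Pool.Agent.Helper72.FT6.Low

/-!
# Lower bound for `d = 6`: discharging
-/

namespace Pool.Agent.Helper72.FT6

open Pool.Agent.Helper68

section dis

variable {V : Type} [Fintype V] [DecidableEq V] {G : SimpleGraph V} [DecidableRel G.Adj]

theorem sum_swap2 (H : Finset V) (g : V → V → ℕ) :
    ∑ u ∈ Hᶜ, ∑ x ∈ G.neighborFinset u \ H, g x u =
      ∑ x ∈ Hᶜ, ∑ u ∈ G.neighborFinset x \ H, g x u := by
  have h1 : ∀ u : V, ∑ v ∈ G.neighborFinset u \ H, g v u =
      ∑ v ∈ Hᶜ, if G.Adj u v then g v u else 0 := by
    intro u
    rw [← Finset.sum_filter]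
    congr 1
    ext x
    simp only [Finset.mem_sdiff, SimpleGraph.mem_neighborFinset, Finset.mem_filter,
      Finset.mem_compl]
    tauto
  have h2 : ∀ x : V, ∑ u ∈ G.neighborFinset x \ H, g x u =
      ∑ u ∈ Hᶜ, if G.Adj u x then g x u else 0 := by
    intro x
    rw [← Finset.sum_filter]
    congr 1
    ext u
    simp only [Finset.mem_sdiff, SimpleGraph.mem_neighborFinset, Finset.mem_filter,
      Finset.mem_compl]
    constructor
    · rintro ⟨h1, h2⟩; exact ⟨h2, h1.symm⟩
    · rintro ⟨h1, h2⟩; exact ⟨h2.symm, h1⟩
  simp only [h1, h2]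
  rw [Finset.sum_comm]

/-- the amount that `x` gives to its low neighbour `w` -/
def give (G : SimpleGraph V) [DecidableRel G.Adj] (H : Finset V) (k : ℕ) (x w : V) : ℕ :=
  if 0 < (Xs G H x).card then (if G.degree x = k then 1 else 2)
  else if (k < G.degree x ∧ ∃ y ∈ G.neighborFinset x, 0 < (Xs G H y).card) ∧
    (Xs G H w).card = 0 ∧ ∀ y ∈ G.neighborFinset w, (Xs G H y).card = 0 then 1 else 0

theorem Xs_card_eq_zero {H : Finset V} {u : V} :
    (Xs G H u).card = 0 ↔ ∀ y ∈ H, ¬ G.Adj u y := by
  rw [Finset.card_eq_zero, Finset.eq_empty_iff_forall_notMem]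
  unfold Xs
  constructor
  · intro h y hy hadj
    exact h y (Finset.mem_inter.mpr ⟨by simpa using hadj, hy⟩)
  · intro h y hy
    rw [Finset.mem_inter, SimpleGraph.mem_neighborFinset] at hy
    exact h y hy.2 hy.1

/-- the violating vertices -/
noncomputable def Viol6 (G : SimpleGraph V) [DecidableRel G.Adj] (H : Finset V) (k : ℕ) : Finset V :=
  by
    classical
    exact Hᶜ.filter (fun w => G.degree w = k ∧ (w ∈ V0 G H ∨ w ∈ V1 G H k))

theorem card_Viol6 {k D : ℕ} {H : Finset V} (h : FaultTolerant G 6 k) (hk : 1 ≤ k)
    (hn : k + 1 ≤ Fintype.card V) (hD1 : 1 ≤ D) (hD : ∀ x ∉ H, G.degree x ≤ D) :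
    (Viol6 G H k).card ≤ (6 * D ^ 6 + 1) + (8 * D ^ 6 + 1) ^ (k + 1) := by
  classical
  have hsub : Viol6 G H k ⊆ (Hᶜ.filter (fun w => G.degree w = k ∧ w ∈ V0 G H)) ∪
      (Hᶜ.filter (fun w => w ∈ V1 G H k)) := by
    intro w hw
    unfold Viol6 at hw
    rw [Finset.mem_filter] at hw
    rw [Finset.mem_union, Finset.mem_filter, Finset.mem_filter]
    tauto
  refine (Finset.card_le_card hsub).trans ((Finset.card_union_le _ _).trans ?_)
  refine Nat.add_le_add ?_ ?_
  · refine card_V0 h hk hn hD1 hD _ ?_ ?_
    · intro w hw
      exact (Finset.mem_filter.mp hw).2.2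
    · intro w hw
      exact (Finset.mem_filter.mp hw).2.1
  · refine card_V1 h hk hn hD1 hD _ ?_
    intro w hw
    exact (Finset.mem_filter.mp hw).2

theorem vertex_ineq6 {k : ℕ} {H : Finset V} (hk : 2 ≤ k) {u : V} (hu : u ∉ H)
    (hdeg : k ≤ G.degree u) (hlow : ∀ x ∈ G.neighborFinset u, k ≤ G.degree x) :
    k * (k + 1) + 2 + ∑ w ∈ G.neighborFinset u \ H, give G H k u w ≤
      (k + 1) * (2 * (Xs G H u).card + (G.neighborFinset u \ H).card) +
        ∑ x ∈ G.neighborFinset u \ H, give G H k x u + (if u ∈ Viol6 G H k then 2 else 0) := by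
  classical
  have hjl : (Xs G H u).card + (G.neighborFinset u \ H).card = G.degree u := by
    rw [← SimpleGraph.card_neighborFinset_eq_degree]
    exact Finset.card_inter_add_card_sdiff _ _
  rcases Nat.eq_zero_or_pos (Xs G H u).card with hj | hj
  · -- no hub neighbour
    have hN : G.neighborFinset u \ H = G.neighborFinset u := by
      rw [Finset.sdiff_eq_self_iff_disjoint, Finset.disjoint_left]
      intro y hy hyH
      exact Xs_card_eq_zero.mp hj y hyH (by simpa using hy)
    rw [hN] at hjl ⊢
    have hl : (G.neighborFinset u).card = G.degree u := by omega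
    rw [hj, hl]
    simp only [Nat.mul_zero, Nat.zero_add]
    have hgive : ∀ w, give G H k u w = if (k < G.degree u ∧ ∃ y ∈ G.neighborFinset u,
        0 < (Xs G H y).card) ∧ (Xs G H w).card = 0 ∧
        ∀ y ∈ G.neighborFinset w, (Xs G H y).card = 0 then 1 else 0 := by
      intro w
      unfold give
      rw [if_neg (by omega)]
    rcases Nat.lt_or_ge k (G.degree u) with hd | hd
    · by_cases hex : ∃ y ∈ G.neighborFinset u, 0 < (Xs G H y).card
      · obtain ⟨y, hy, hy2⟩ := hex
        have h1 : ∑ w ∈ G.neighborFinset u, give G H k u w ≤ G.degree u - 1 := by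
          rw [← hl, ← Finset.card_erase_of_mem hy,
            ← Finset.add_sum_erase _ _ hy]
          have h2 : give G H k u y = 0 := by
            rw [hgive, if_neg]
            intro h3
            omega
          rw [h2, Nat.zero_add, Finset.card_eq_sum_ones]
          refine Finset.sum_le_sum fun w _ => ?_
          rw [hgive]
          split_ifs <;> omega
        have h2 : 1 ≤ ∑ x ∈ G.neighborFinset u, give G H k x u := by
          refine le_trans ?_ (Finset.single_le_sum (f := fun x => give G H k x u)
            (fun _ _ => Nat.zero_le _) hy)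
          unfold give
          rw [if_pos hy2]
          split_ifs <;> omega
        have h3 : k * (k + 1) ≤ k * G.degree u := Nat.mul_le_mul_left _ hd
        have h4 : (k + 1) * G.degree u = k * G.degree u + G.degree u := by ring
        omega
      · have h1 : ∑ w ∈ G.neighborFinset u, give G H k u w = 0 := by
          refine Finset.sum_eq_zero fun w _ => ?_
          rw [hgive, if_neg]
          rintro ⟨⟨-, h3⟩, -⟩
          exact hex h3
        have h3 : (k + 1) * (k + 1) ≤ (k + 1) * G.degree u := Nat.mul_le_mul_left _ hd
        have h4 : (k + 1) * (k + 1) = k * (k + 1) + (k + 1) := by ring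
        omega
    · have hdk : G.degree u = k := by omega
      have h1 : ∑ w ∈ G.neighborFinset u, give G H k u w = 0 := by
        refine Finset.sum_eq_zero fun w _ => ?_
        rw [hgive, if_neg]
        rintro ⟨⟨h3, -⟩, -⟩
        omega
      rw [h1, hdk]
      have h4 : (k + 1) * k = k * (k + 1) := Nat.mul_comm _ _
      split_ifs with hV
      · omega
      · have hV' : ¬ (u ∈ V0 G H ∨ u ∈ V1 G H k) := by
          intro h3
          apply hV
          unfold Viol6
          rw [Finset.mem_filter, Finset.mem_compl]
          exact ⟨hu, hdk, h3⟩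
        rw [not_or] at hV'
        obtain ⟨hV0, hV1⟩ := hV'
        have huX := Xs_card_eq_zero.mp hj
        have hnH : ∀ y, G.Adj u y → y ∉ H := fun y hy hyH => huX y hyH hy
        suffices h5 : 2 ≤ ∑ x ∈ G.neighborFinset u, give G H k x u by omega
        by_cases hex : ∃ x ∈ G.neighborFinset u, 0 < (Xs G H x).card
        · obtain ⟨x, hx, hx2⟩ := hex
          by_cases hxk : G.degree x = k
          · -- a second one
            have hex2 : ∃ y ∈ (G.neighborFinset u).erase x, 0 < (Xs G H y).card := by
              by_contra hcon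
              push Not at hcon
              apply hV1
              refine ⟨hu, huX, x, hnH x (by simpa using hx), by simpa using hx, hxk, ?_⟩
              intro y hy z hz hyz
              by_contra hyx
              have h6 := hcon y (Finset.mem_erase.mpr ⟨hyx, by simpa using hy⟩)
              exact Xs_card_eq_zero.mp (Nat.le_zero.mp h6) z hz hyz
            obtain ⟨y, hy, hy2⟩ := hex2
            rw [← Finset.add_sum_erase _ _ hx, ← Finset.add_sum_erase _ _ hy]
            have h6 : 1 ≤ give G H k x u := by
              unfold give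
              rw [if_pos hx2]
              split_ifs <;> omega
            have h7 : 1 ≤ give G H k y u := by
              unfold give
              rw [if_pos hy2]
              split_ifs <;> omega
            omega
          · refine le_trans ?_ (Finset.single_le_sum (f := fun x => give G H k x u)
              (fun _ _ => Nat.zero_le _) hx)
            unfold give
            rw [if_pos hx2, if_neg hxk]
        · push Not at hex
          have hall : ∀ x ∈ G.neighborFinset u, give G H k x u = 1 := by
            intro x hx
            have hx0 := Nat.le_zero.mp (hex x hx)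
            have hxu : G.Adj u x := by simpa using hx
            unfold give
            rw [if_neg (by omega), if_pos]
            refine ⟨⟨?_, ?_⟩, hj, fun y hy => Nat.le_zero.mp (hex y hy)⟩
            · rcases Nat.lt_or_ge k (G.degree x) with h6 | h6
              · exact h6
              · exfalso
                apply hV1
                refine ⟨hu, huX, x, hnH x hxu, hxu, le_antisymm h6 (hlow x hx), ?_⟩
                intro y hy z hz hyz
                exact absurd hyz (Xs_card_eq_zero.mp (Nat.le_zero.mp (hex y (by simpa using hy)))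
                  z hz)
            · by_contra hcon
              push Not at hcon
              apply hV0
              refine ⟨hu, huX, ?_, x, hxu, ?_⟩
              · intro y hy z hz
                exact Xs_card_eq_zero.mp (Nat.le_zero.mp (hex y (by simpa using hy))) z hz
              · intro z hz y hy
                exact Xs_card_eq_zero.mp (Nat.le_zero.mp (hcon z (by simpa using hz))) y hy
          rw [Finset.sum_congr rfl hall, Finset.sum_const, smul_eq_mul, Nat.mul_one, hl, hdk]
          exact hk
  · -- hub neighbours
    by_cases hdk : G.degree u = k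
    · have h1 : ∑ w ∈ G.neighborFinset u \ H, give G H k u w = (G.neighborFinset u \ H).card := by
        rw [Finset.card_eq_sum_ones]
        refine Finset.sum_congr rfl fun w _ => ?_
        unfold give
        rw [if_pos hj, if_pos hdk]
      rw [h1]
      refine le_trans ?_ ((Nat.le_add_right _ _).trans (Nat.le_add_right _ _))
      rw [hdk] at hjl
      generalize (Xs G H u).card = j at hj hjl
      generalize (G.neighborFinset u \ H).card = l at hjl
      subst hjl
      nlinarith
    · have h1 : ∑ w ∈ G.neighborFinset u \ H, give G H k u w =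
          2 * (G.neighborFinset u \ H).card := by
        rw [Finset.card_eq_sum_ones, Finset.mul_sum]
        refine Finset.sum_congr rfl fun w _ => ?_
        unfold give
        rw [if_pos hj, if_neg hdk, Nat.mul_one]
      rw [h1]
      refine le_trans ?_ ((Nat.le_add_right _ _).trans (Nat.le_add_right _ _))
      have hd : k + 1 ≤ (Xs G H u).card + (G.neighborFinset u \ H).card := by omega
      generalize (Xs G H u).card = j at hj hd
      generalize (G.neighborFinset u \ H).card = l at hd
      zify at hj hd hk ⊢
      nlinarith [mul_nonneg (by linarith : (0 : ℤ) ≤ (k : ℤ) - 1) (sub_nonneg.mpr hd),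
        mul_nonneg (by linarith : (0 : ℤ) ≤ (k : ℤ) + 3) (by linarith : (0 : ℤ) ≤ (j : ℤ) - 1)]

/-- lower bound for `d = 6` in terms of the number of violating vertices -/
theorem lower6_viol {k : ℕ} {H : Finset V} (h : FaultTolerant G 6 k) (hk : 2 ≤ k)
    (hn : k + 1 ≤ Fintype.card V) :
    (k * (k + 1) + 2) * Fintype.card V ≤
      (k + 1) * (2 * G.edgeFinset.card) + (k * (k + 1) + 2) * H.card +
        2 * (Viol6 G H k).card := by
  have h1 : ∑ u ∈ Hᶜ, (k * (k + 1) + 2 + ∑ w ∈ G.neighborFinset u \ H, give G H k u w) ≤
      ∑ u ∈ Hᶜ, ((k + 1) * (2 * (Xs G H u).card + (G.neighborFinset u \ H).card) +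
        ∑ x ∈ G.neighborFinset u \ H, give G H k x u + (if u ∈ Viol6 G H k then 2 else 0)) := by
    refine Finset.sum_le_sum fun u hu => ?_
    rw [Finset.mem_compl] at hu
    exact vertex_ineq6 hk hu (h.le_degree (by omega) hn u)
      (fun x _ => h.le_degree (by omega) hn x)
  simp only [Finset.sum_add_distrib, Finset.sum_const, smul_eq_mul, ← Finset.mul_sum] at h1
  have hsw := sum_swap2 (G := G) H (fun x u => give G H k x u)
  have h2 : ∑ u ∈ Hᶜ, (if u ∈ Viol6 G H k then 2 else 0) = 2 * (Viol6 G H k).card := by
    rw [← Finset.sum_filter, Finset.sum_const, smul_eq_mul, mul_comm]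
    congr 2
    ext x
    simp only [Finset.mem_filter]
    constructor
    · rintro ⟨-, h⟩; exact h
    · intro h
      refine ⟨?_, h⟩
      classical
      unfold Viol6 at h
      exact (Finset.mem_filter.mp h).1
  rw [h2] at h1
  have h3 := two_mul_edges_ge (G := G) H
  have h4 : Hᶜ.card + H.card = Fintype.card V := Finset.card_compl_add_card H
  have h6 : (k + 1) * ∑ u ∈ Hᶜ, (2 * (Xs G H u).card + (G.neighborFinset u \ H).card) ≤
      (k + 1) * (2 * G.edgeFinset.card) := Nat.mul_le_mul_left _ h3
  simp only [Finset.sum_add_distrib, ← Finset.mul_sum] at h6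
  have h7 : (k * (k + 1) + 2) * Fintype.card V =
      Hᶜ.card * (k * (k + 1)) + Hᶜ.card * 2 + (k * (k + 1) + 2) * H.card := by
    rw [← h4]; ring
  rw [h7]
  omega

end dis

end Pool.Agent.Helper72.FT6
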