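import Pool.Agent.Helper68.FTUpper

/-!
# Fault tolerant graphs of diameter six: the construction

(MP_1438b7_co.) The graph consists of `k` hubs and of blocks of `k * (k + 1)` vertices: a grid of
`k * k` vertices whose columns are cliques, and one collector for each row.  The collector of the
row `a` is adjacent to the vertices of the row `a` outside of the diagonal and to the hub `a`, and
the vertex `(a, a)` is adjacent to the hub `a`.
-/

set_option autoImplicit false

namespace Pool.Agent.Helper72.FT6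

open Pool.Agent.Helper68

section rch

variable {V : Type} {G : SimpleGraph V}

/-- a walk of length at most `m` from `u` to `v` avoiding `S` -/
def Rch (G : SimpleGraph V) (S : Finset V) (m : ℕ) (u v : V) : Prop :=
  ∃ p : G.Walk u v, p.length ≤ m ∧ ∀ x ∈ p.support, x ∉ S

theorem Rch.refl {S : Finset V} {u : V} (hu : u ∉ S) : Rch G S 0 u u :=
  ⟨.nil, le_refl _, by simpa using hu⟩

theorem Rch.mono {S : Finset V} {u v : V} {m m' : ℕ} (h : Rch G S m u v) (hm : m ≤ m') :
    Rch G S m' u v := by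
  obtain ⟨p, h1, h2⟩ := h
  exact ⟨p, h1.trans hm, h2⟩

theorem Rch.symm {S : Finset V} {u v : V} {m : ℕ} (h : Rch G S m u v) : Rch G S m v u := by
  obtain ⟨p, h1, h2⟩ := h
  exact ⟨p.reverse, by simpa using h1, fun x hx => h2 x (by simpa using hx)⟩

theorem Rch.trans {S : Finset V} {u v w : V} {m m' : ℕ} (h : Rch G S m u v)
    (h' : Rch G S m' v w) : Rch G S (m + m') u w := by
  obtain ⟨p, h1, h2⟩ := h
  obtain ⟨p', h1', h2'⟩ := h'
  refine ⟨p.append p', ?_, ?_⟩
  · rw [SimpleGraph.Walk.length_append]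
    omega
  · intro x hx
    rw [SimpleGraph.Walk.mem_support_append_iff] at hx
    rcases hx with hx | hx
    · exact h2 x hx
    · exact h2' x hx

theorem Rch.step {S : Finset V} {u v : V} (hu : u ∉ S) (hv : v ∉ S) (h : u = v ∨ G.Adj u v) :
    Rch G S 1 u v := by
  rcases h with rfl | h
  · exact (Rch.refl hu).mono (by omega)
  · refine ⟨.cons h .nil, by simp, ?_⟩
    intro x hx
    simp only [SimpleGraph.Walk.support_cons, SimpleGraph.Walk.support_nil, List.mem_cons,
      List.not_mem_nil, or_false] at hx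
    rcases hx with rfl | rfl
    · exact hu
    · exact hv

theorem Rch.conn {S : Finset V} {u v : V} {m : ℕ} (h : Rch G S m u v) : Conn G S m u v := by
  obtain ⟨p, h1, h2⟩ := h
  refine Conn.mono ?_ h1
  clear h1
  induction p with
  | nil => exact Conn.refl (h2 _ (by simp))
  | cons h p ih =>
    rw [SimpleGraph.Walk.length_cons]
    exact (ih fun x hx => h2 x (by simp [hx])).cons (h2 _ (by simp)) (Or.inr h)

/-- A set with less than `k` elements misses a whole class of a labelling with `k` labels. -/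
theorem exists_label {k : ℕ} {S : Finset V} (hS : S.card < k) (lab : V → Fin k) :
    ∃ i, ∀ x, lab x = i → x ∉ S := by
  classical
  have h1 : (S.image lab).card < Fintype.card (Fin k) := by
    rw [Fintype.card_fin]
    exact Finset.card_image_le.trans_lt hS
  obtain ⟨i, hi⟩ : ∃ i, i ∉ S.image lab := by
    by_contra hcon
    push Not at hcon
    have : S.image lab = Finset.univ := Finset.eq_univ_iff_forall.mpr hcon
    rw [this, Finset.card_univ] at h1
    exact lt_irrefl _ h1
  exact ⟨i, fun x hx hxS => hi (Finset.mem_image.mpr ⟨x, hxS, hx⟩)⟩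

end rch

section defs

/-- hubs, grid vertices, collectors, leftover vertices -/
inductive FV (k q r : ℕ) : Type
  | h (i : Fin k) : FV k q r
  | g (b : Fin q) (a c : Fin k) : FV k q r
  | z (b : Fin q) (a : Fin k) : FV k q r
  | l (j : Fin r) : FV k q r

/-- the vertices as a sum -/
def fvEquiv (k q r : ℕ) :
    FV k q r ≃ (Fin k ⊕ (Fin q × Fin k × Fin k)) ⊕ ((Fin q × Fin k) ⊕ Fin r) where
  toFun
    | .h i => .inl (.inl i)
    | .g b a c => .inl (.inr (b, a, c))
    | .z b a => .inr (.inl (b, a))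
    | .l j => .inr (.inr j)
  invFun
    | .inl (.inl i) => .h i
    | .inl (.inr (b, a, c)) => .g b a c
    | .inr (.inl (b, a)) => .z b a
    | .inr (.inr j) => .l j
  left_inv x := by cases x <;> rfl
  right_inv x := by
    rcases x with (i | ⟨b, a, c⟩) | (⟨b, a⟩ | j) <;> rfl

instance (k q r : ℕ) : DecidableEq (FV k q r) := (fvEquiv k q r).decidableEq

instance (k q r : ℕ) : Fintype (FV k q r) := Fintype.ofEquiv _ (fvEquiv k q r).symm

theorem card_FV (k q r : ℕ) : Fintype.card (FV k q r) = k + q * (k * (k + 1)) + r := by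
  rw [Fintype.card_congr (fvEquiv k q r)]
  simp only [Fintype.card_sum, Fintype.card_fin, Fintype.card_prod]
  ring

/-- adjacency -/
def fAdj (k q r : ℕ) : FV k q r → FV k q r → Prop
  | .h i, .h j => i ≠ j
  | .h i, .g _ a c => i = a ∧ a = c
  | .g _ a c, .h i => i = a ∧ a = c
  | .h i, .z _ a => i = a
  | .z _ a, .h i => i = a
  | .h _, .l _ => True
  | .l _, .h _ => True
  | .g b a c, .g b' a' c' => b = b' ∧ a ≠ a' ∧ c = c'
  | .g b a c, .z b' a' => b = b' ∧ a = a' ∧ a ≠ c
  | .z b' a', .g b a c => b = b' ∧ a = a' ∧ a ≠ c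
  | _, _ => False

/-- the graph -/
def fGraph (k q r : ℕ) : SimpleGraph (FV k q r) where
  Adj := fAdj k q r
  symm := ⟨by
    intro u v h
    rcases u with i | ⟨b, a, c⟩ | ⟨b, a⟩ | j <;> rcases v with i' | ⟨b', a', c'⟩ | ⟨b', a'⟩ | j' <;>
      simp only [fAdj] at h ⊢ <;> first | exact h | exact h.symm | skip
    exact ⟨h.1.symm, h.2.1.symm, h.2.2.symm⟩⟩
  loopless := ⟨by
    intro u h
    rcases u with i | ⟨b, a, c⟩ | ⟨b, a⟩ | j <;> simp [fAdj] at h⟩

end defs

section conn

variable {k q r : ℕ} {S : Finset (FV k q r)}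

theorem adj_hg (b : Fin q) (a : Fin k) : (fGraph k q r).Adj (.h a) (.g b a a) := ⟨rfl, rfl⟩

theorem adj_hz (b : Fin q) (a : Fin k) : (fGraph k q r).Adj (.h a) (.z b a) :=
  (rfl : a = a)

theorem adj_hl (i : Fin k) (j : Fin r) : (fGraph k q r).Adj (.h i) (.l j) := trivial

theorem adj_zg (b : Fin q) {a c : Fin k} (h : a ≠ c) : (fGraph k q r).Adj (.z b a) (.g b a c) :=
  ⟨rfl, rfl, h⟩

theorem rch_hh {i j : Fin k} (hi : FV.h i ∉ S) (hj : FV.h j ∉ S) :
    Rch (fGraph k q r) S 1 (.h i) (.h j) := by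
  apply Rch.step hi hj
  by_cases h : i = j
  · exact Or.inl (by rw [h])
  · exact Or.inr h

theorem rch_gg {b : Fin q} {a a' c : Fin k} (h : FV.g b a c ∉ S) (h' : FV.g b a' c ∉ S) :
    Rch (fGraph k q r) S 1 (.g b a c) (.g b a' c) := by
  apply Rch.step h h'
  by_cases h : a = a'
  · exact Or.inl (by rw [h])
  · exact Or.inr ⟨rfl, h, rfl⟩

theorem rch_hg {b : Fin q} {a : Fin k} (h : FV.h a ∉ S) (h' : FV.g b a a ∉ S) :
    Rch (fGraph k q r) S 1 (.h a) (.g b a a) := Rch.step h h' (Or.inr (adj_hg b a))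

theorem rch_hz {b : Fin q} {a : Fin k} (h : FV.h a ∉ S) (h' : FV.z b a ∉ S) :
    Rch (fGraph k q r) S 1 (.h a) (.z b a) := Rch.step h h' (Or.inr (adj_hz b a))

theorem rch_zg {b : Fin q} {a c : Fin k} (hac : a ≠ c) (h : FV.z b a ∉ S)
    (h' : FV.g b a c ∉ S) : Rch (fGraph k q r) S 1 (.z b a) (.g b a c) :=
  Rch.step h h' (Or.inr (adj_zg b hac))

theorem toHub_g {b : Fin q} {a c i : Fin k} (hu : FV.g b a c ∉ S) (hh : FV.h i ∉ S)
    (h1 : FV.g b i c ∉ S) (h2 : FV.z b i ∉ S) : Rch (fGraph k q r) S 3 (.g b a c) (.h i) := by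
  by_cases h : i = c
  · subst h
    exact ((rch_gg hu h1).trans (rch_hg hh h1).symm).mono (by omega)
  · exact ((rch_gg hu h1).trans (rch_zg h h2 h1).symm).trans (rch_hz hh h2).symm

theorem toHub_z {b : Fin q} {a i : Fin k} (hu : FV.z b a ∉ S) (hh : FV.h i ∉ S)
    (h1 : FV.g b a i ∉ S) (h2 : FV.g b i i ∉ S) : Rch (fGraph k q r) S 3 (.z b a) (.h i) := by
  by_cases h : i = a
  · subst h
    exact (rch_hz hh hu).symm.mono (by omega)
  · exact ((rch_zg (Ne.symm h) hu h1).trans (rch_gg h1 h2)).trans (rch_hg hh h2).symm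

/-- the row of a vertex -/
def rowL (d : Fin k) : FV k q r → Fin k
  | .h i => i
  | .g _ a _ => a
  | .z _ a => a
  | .l _ => d

/-- the column of a vertex -/
def colL (d : Fin k) : FV k q r → Fin k
  | .h i => i
  | .g _ _ c => c
  | .z _ a => a
  | .l _ => d

/-- the row of a vertex in the block `b`, the column of a vertex in the other blocks -/
def mixL (b : Fin q) (d : Fin k) : FV k q r → Fin k
  | .h i => i
  | .g b' a c => if b' = b then a else c
  | .z _ a => a
  | .l _ => d

/-- the labels for a collector `a` and a vertex in the column `c` of the same block -/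
def zgL (a c : Fin k) : FV k q r → Fin k
  | .h i => if i = a then c else i
  | .g _ y w => if y = a then (if w = c then a else w) else y
  | .z _ y => y
  | .l _ => a

theorem gate (hS : S.card < k) (u : FV k q r) (hu : u ∉ S) :
    ∃ i, FV.h i ∉ S ∧ Rch (fGraph k q r) S 3 u (.h i) := by
  rcases u with i | ⟨b, a, c⟩ | ⟨b, a⟩ | j
  · exact ⟨i, hu, (Rch.refl hu).mono (by omega)⟩
  · obtain ⟨i, hi⟩ := exists_label hS (rowL a)
    exact ⟨i, hi _ rfl, toHub_g hu (hi _ rfl) (hi _ rfl) (hi _ rfl)⟩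
  · obtain ⟨i, hi⟩ := exists_label hS (colL a)
    exact ⟨i, hi _ rfl, toHub_z hu (hi _ rfl) (hi _ rfl) (hi _ rfl)⟩
  · obtain ⟨i, hi⟩ := exists_label hS (rowL ⟨0, by omega⟩)
    exact ⟨i, hi _ rfl, (Rch.step (hi _ rfl) hu (Or.inr (adj_hl i j))).symm.mono (by omega)⟩

theorem conn_gg (hS : S.card < k) {b b' : Fin q} {a c a' c' : Fin k} (hu : FV.g b a c ∉ S)
    (hv : FV.g b' a' c' ∉ S) : Rch (fGraph k q r) S 6 (.g b a c) (.g b' a' c') := by
  obtain ⟨i, hi⟩ := exists_label hS (rowL a)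
  by_cases hb : b = b'
  · subst hb
    by_cases hc : c = c'
    · subst hc
      exact (rch_gg hu hv).mono (by omega)
    · have h1 : Rch (fGraph k q r) S 1 (.g b a c) (.g b i c) := rch_gg hu (hi _ rfl)
      have h2 : Rch (fGraph k q r) S 1 (.g b i c') (.g b a' c') := rch_gg (hi _ rfl) hv
      have h3 : Rch (fGraph k q r) S 3 (.g b i c) (.g b i c') := by
        by_cases h4 : i = c
        · subst h4
          exact ((rch_hg (hi _ rfl) (hi _ rfl)).symm.trans (rch_hz (hi _ rfl) (hi _ rfl))).trans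
            (rch_zg hc (hi _ rfl) (hi _ rfl))
        · by_cases h5 : i = c'
          · subst h5
            exact (((rch_hg (hi _ rfl) (hi _ rfl)).symm.trans
              (rch_hz (hi _ rfl) (hi _ rfl))).trans (rch_zg h4 (hi _ rfl) (hi _ rfl))).symm
          · exact ((rch_zg h4 (hi _ rfl) (hi _ rfl)).symm.trans
              (rch_zg h5 (hi _ rfl) (hi _ rfl))).mono (by omega)
      exact ((h1.trans h3).trans h2).mono (by omega)
  · exact (toHub_g hu (hi _ rfl) (hi _ rfl) (hi _ rfl)).trans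
      (toHub_g hv (hi _ rfl) (hi _ rfl) (hi _ rfl)).symm

theorem conn_zz (hS : S.card < k) {b b' : Fin q} {a a' : Fin k} (hu : FV.z b a ∉ S)
    (hv : FV.z b' a' ∉ S) : Rch (fGraph k q r) S 6 (.z b a) (.z b' a') := by
  obtain ⟨i, hi⟩ := exists_label hS (colL a)
  by_cases hb : b = b'
  · subst hb
    by_cases ha : a = a'
    · subst ha
      exact (Rch.refl hu).mono (by omega)
    · have h3 : Rch (fGraph k q r) S 1 (.g b a i) (.g b a' i) := rch_gg (hi _ rfl) (hi _ rfl)
      have h1 : Rch (fGraph k q r) S 2 (.z b a) (.g b a i) := by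
        by_cases h4 : a = i
        · subst h4
          exact (rch_hz (hi _ rfl) hu).symm.trans (rch_hg (hi _ rfl) (hi _ rfl))
        · exact (rch_zg h4 hu (hi _ rfl)).mono (by omega)
      have h2 : Rch (fGraph k q r) S 2 (.z b a') (.g b a' i) := by
        by_cases h4 : a' = i
        · subst h4
          exact (rch_hz (hi _ rfl) hv).symm.trans (rch_hg (hi _ rfl) (hi _ rfl))
        · exact (rch_zg h4 hv (hi _ rfl)).mono (by omega)
      exact ((h1.trans h3).trans h2.symm).mono (by omega)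
  · exact (toHub_z hu (hi _ rfl) (hi _ rfl) (hi _ rfl)).trans
      (toHub_z hv (hi _ rfl) (hi _ rfl) (hi _ rfl)).symm

theorem conn_zg (hS : S.card < k) {b b' : Fin q} {a x c : Fin k} (hu : FV.z b a ∉ S)
    (hv : FV.g b' x c ∉ S) : Rch (fGraph k q r) S 6 (.z b a) (.g b' x c) := by
  by_cases hb : b = b'
  · subst hb
    obtain ⟨i, hi⟩ := exists_label hS (zgL a c)
    by_cases hia : i = a
    · subst hia
      by_cases hc : i = c
      · subst hc
        have e1 : FV.h i ∉ S := hi _ (by simp [zgL])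
        have e2 : FV.g b i i ∉ S := hi _ (by simp [zgL])
        exact (((rch_hz e1 hu).symm.trans (rch_hg e1 e2)).trans (rch_gg e2 hv)).mono (by omega)
      · have e2 : FV.g b i c ∉ S := hi _ (by simp [zgL])
        exact ((rch_zg hc hu e2).trans (rch_gg e2 hv)).mono (by omega)
    · by_cases hic : i = c
      · subst hic
        have e1 : FV.h a ∉ S := hi _ (by simp [zgL])
        have e2 : FV.h i ∉ S := hi _ (by simp [zgL])
        have e3 : FV.g b i i ∉ S := hi _ (by simp [zgL, hia])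
        exact ((((rch_hz e1 hu).symm.trans (rch_hh e1 e2)).trans (rch_hg e2 e3)).trans
          (rch_gg e3 hv)).mono (by omega)
      · have e1 : FV.g b a i ∉ S := hi _ (by simp [zgL, hic])
        have e2 : FV.g b i i ∉ S := hi _ (by simp [zgL, hia])
        have e3 : FV.h i ∉ S := hi _ (by simp [zgL, hia])
        have e4 : FV.z b i ∉ S := hi _ rfl
        have e5 : FV.g b i c ∉ S := hi _ (by simp [zgL, hia])
        exact (((((rch_zg (Ne.symm hia) hu e1).trans (rch_gg e1 e2)).trans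
          (rch_hg e3 e2).symm).trans (rch_hz e3 e4)).trans (rch_zg hic e4 e5)).trans
          (rch_gg e5 hv)
  · obtain ⟨i, hi⟩ := exists_label hS (mixL b' a)
    exact (toHub_z hu (hi _ rfl) (hi _ (by simp [mixL, hb])) (hi _ (by simp [mixL, hb]))).trans
      (toHub_g hv (hi _ rfl) (hi _ (by simp [mixL])) (hi _ rfl)).symm

theorem fGraph_rch (hS : S.card < k) (u v : FV k q r) (hu : u ∉ S) (hv : v ∉ S) :
    Rch (fGraph k q r) S 6 u v := by
  have key : ∀ w x : FV k q r, w ∉ S → x ∉ S → ((∃ i, w = .h i) ∨ ∃ j, w = .l j) →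
      Rch (fGraph k q r) S 6 w x := by
    rintro w x hw hx (⟨i, rfl⟩ | ⟨j, rfl⟩)
    · obtain ⟨i', h1, h2⟩ := gate hS x hx
      exact ((rch_hh hw h1).trans h2.symm).mono (by omega)
    · obtain ⟨i', h1, h2⟩ := gate hS x hx
      exact ((Rch.step h1 hw (Or.inr (adj_hl i' j))).symm.trans h2.symm).mono (by omega)
  rcases u with i | ⟨b, a, c⟩ | ⟨b, a⟩ | j
  · exact key _ _ hu hv (Or.inl ⟨_, rfl⟩)
  · rcases v with i' | ⟨b', a', c'⟩ | ⟨b', a'⟩ | j'
    · exact (key _ _ hv hu (Or.inl ⟨_, rfl⟩)).symm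
    · exact conn_gg hS hu hv
    · exact (conn_zg hS hv hu).symm
    · exact (key _ _ hv hu (Or.inr ⟨_, rfl⟩)).symm
  · rcases v with i' | ⟨b', a', c'⟩ | ⟨b', a'⟩ | j'
    · exact (key _ _ hv hu (Or.inl ⟨_, rfl⟩)).symm
    · exact conn_zg hS hu hv
    · exact conn_zz hS hu hv
    · exact (key _ _ hv hu (Or.inr ⟨_, rfl⟩)).symm
  · exact key _ _ hu hv (Or.inr ⟨_, rfl⟩)

end conn

section edges

theorem fGraph_edges (k q r : ℕ) :
    (fGraph k q r).edgeSet.ncard ≤
      k * k + q * k + q * k + k * r + q * (k * k.choose 2) + q * (k * k - k) := by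
  classical
  have h1 : (fGraph k q r).edgeSet ⊆
      (((((((Finset.univ : Finset (Fin k × Fin k)).image
          (fun x => (s(FV.h x.1, FV.h x.2) : Sym2 (FV k q r)))) ∪
        ((Finset.univ : Finset (Fin q × Fin k)).image
          (fun x => s(FV.h x.2, FV.z x.1 x.2)))) ∪
        ((Finset.univ : Finset (Fin q × Fin k)).image
          (fun x => s(FV.h x.2, FV.g x.1 x.2 x.2)))) ∪
        ((Finset.univ : Finset (Fin k × Fin r)).image
          (fun x => s(FV.h x.1, FV.l x.2)))) ∪
        (((Finset.univ : Finset (Fin q)) ×ˢ ((Finset.univ : Finset (Fin k)) ×ˢ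
          (⊤ : SimpleGraph (Fin k)).edgeFinset)).image
          (fun x => x.2.2.map (fun i => FV.g x.1 i x.2.1)))) ∪
        (((Finset.univ : Finset (Fin q)) ×ˢ (Finset.univ : Finset (Fin k)).offDiag).image
          (fun x => s(FV.z x.1 x.2.1, FV.g x.1 x.2.1 x.2.2))) : Finset (Sym2 (FV k q r))) := by
    intro e he
    rw [Finset.mem_coe]
    simp only [Finset.mem_union, Finset.mem_image, Finset.mem_univ, true_and, Finset.mem_product,
      Finset.mem_offDiag, Prod.exists]
    induction e using Sym2.ind with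
    | _ x y =>
      rw [SimpleGraph.mem_edgeSet] at he
      change fAdj k q r x y at he
      rcases x with i | ⟨b, a, c⟩ | ⟨b, a⟩ | j <;>
        rcases y with i' | ⟨b', a', c'⟩ | ⟨b', a'⟩ | j' <;> simp only [fAdj] at he
      · exact Or.inl (Or.inl (Or.inl (Or.inl (Or.inl ⟨i, i', rfl⟩))))
      · obtain ⟨rfl, rfl⟩ := he
        exact Or.inl (Or.inl (Or.inl (Or.inr ⟨b', i, rfl⟩)))
      · subst he
        exact Or.inl (Or.inl (Or.inl (Or.inl (Or.inr ⟨b', i, rfl⟩))))
      · exact Or.inl (Or.inl (Or.inr ⟨i, j', rfl⟩))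
      · obtain ⟨rfl, rfl⟩ := he
        exact Or.inl (Or.inl (Or.inl (Or.inr ⟨b, i', Sym2.eq_swap⟩)))
      · obtain ⟨rfl, h2, rfl⟩ := he
        refine Or.inl (Or.inr ⟨b, c, s(a, a'), ?_, rfl⟩)
        rw [SimpleGraph.mem_edgeFinset, SimpleGraph.mem_edgeSet, SimpleGraph.top_adj]
        exact h2
      · obtain ⟨rfl, rfl, h2⟩ := he
        exact Or.inr ⟨b, a, c, h2, Sym2.eq_swap⟩
      · subst he
        exact Or.inl (Or.inl (Or.inl (Or.inl (Or.inr ⟨b, i', Sym2.eq_swap⟩))))
      · obtain ⟨rfl, rfl, h2⟩ := he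
        exact Or.inr ⟨b', a', c', h2, rfl⟩
      · exact Or.inl (Or.inl (Or.inr ⟨i', j, Sym2.eq_swap⟩))
  refine (Set.ncard_le_ncard h1 (Finset.finite_toSet _)).trans ?_
  rw [Set.ncard_coe_finset]
  refine (Finset.card_union_le _ _).trans (Nat.add_le_add ((Finset.card_union_le _ _).trans
    (Nat.add_le_add ((Finset.card_union_le _ _).trans (Nat.add_le_add
    ((Finset.card_union_le _ _).trans (Nat.add_le_add ((Finset.card_union_le _ _).trans
    (Nat.add_le_add ?_ ?_)) ?_)) ?_)) ?_)) ?_)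
  · exact Finset.card_image_le.trans (by simp)
  · exact Finset.card_image_le.trans (by simp)
  · exact Finset.card_image_le.trans (by simp)
  · exact Finset.card_image_le.trans (by simp)
  · refine Finset.card_image_le.trans ?_
    rw [Finset.card_product, Finset.card_product,
      SimpleGraph.card_edgeFinset_top_eq_card_choose_two]
    simp
  · refine Finset.card_image_le.trans ?_
    rw [Finset.card_product, Finset.offDiag_card]
    simp

/-- the upper bound for `d = 6` -/
theorem fhat_six_le {n k : ℕ} (hk : 1 ≤ k) (hn : k ≤ n) :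
    (k + 1) * (2 * fhat n 6 k) ≤ (k * (k + 1) + 2) * n +
      (2 * (k + 1) * (k * k) + 2 * (k + 1) * (k * (k * (k + 1)))) := by
  classical
  have hpos : 0 < k * (k + 1) := Nat.mul_pos (by omega) (by omega)
  have hdiv := Nat.div_add_mod (n - k) (k * (k + 1))
  have hmod := Nat.mod_lt (n - k) hpos
  generalize (n - k) / (k * (k + 1)) = q at hdiv
  generalize (n - k) % (k * (k + 1)) = r at hdiv hmod
  have hcard : Fintype.card (FV k q r) = n := by
    rw [card_FV, Nat.mul_comm q]
    omega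
  have h1 := fhat_le (d := 6) (k := k) hcard
    (fun S hS u v hu hv => (fGraph_rch (by omega) u v hu hv).conn) (fGraph_edges k q r)
  have h2 : 2 * k.choose 2 = k * (k - 1) := by
    rw [Nat.choose_two_right]
    exact Nat.mul_div_cancel' (Nat.even_mul_pred_self k).two_dvd
  obtain ⟨k', rfl⟩ : ∃ k', k = k' + 1 := ⟨k - 1, by omega⟩
  simp only [Nat.add_sub_cancel] at h2
  have h3 : 2 * (q * ((k' + 1) * (k' + 1).choose 2)) = q * ((k' + 1) * ((k' + 1) * k')) := by
    rw [← h2]; ring
  have h3' : (k' + 1) * (k' + 1) - (k' + 1) = (k' + 1) * k' := by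
    rw [Nat.mul_succ, Nat.add_sub_cancel]
  rw [h3'] at h1
  have h4 : (k' + 1) * (k' + 1 + 1) * q ≤ n := by omega
  have h5 : (k' + 1) * r ≤ (k' + 1) * ((k' + 1) * (k' + 1 + 1)) := Nat.mul_le_mul_left _ hmod.le
  have h6 : ((k' + 1) * (k' + 1 + 1) + 2) * ((k' + 1) * (k' + 1 + 1) * q) ≤
      ((k' + 1) * (k' + 1 + 1) + 2) * n := Nat.mul_le_mul_left _ h4
  have h7 : 2 * fhat n 6 (k' + 1) ≤ 2 * ((k' + 1) * (k' + 1)) + 4 * (q * (k' + 1)) +
      2 * ((k' + 1) * r) + q * ((k' + 1) * ((k' + 1) * k')) + 2 * (q * ((k' + 1) * k')) := by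
    omega
  calc (k' + 1 + 1) * (2 * fhat n 6 (k' + 1)) ≤ (k' + 1 + 1) * (2 * ((k' + 1) * (k' + 1)) +
        4 * (q * (k' + 1)) + 2 * ((k' + 1) * r) + q * ((k' + 1) * ((k' + 1) * k')) +
        2 * (q * ((k' + 1) * k'))) := Nat.mul_le_mul_left _ h7
    _ = ((k' + 1) * (k' + 1 + 1) + 2) * ((k' + 1) * (k' + 1 + 1) * q) +
        (2 * (k' + 1 + 1) * ((k' + 1) * (k' + 1)) + 2 * (k' + 1 + 1) * ((k' + 1) * r)) := by ring
    _ ≤ _ := by
      gcongr

end edges

end Pool.Agent.Helper72.FT6
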