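import Pool.Agent.Helper72.FT6.Dis
import Pool.Agent.Helper72.FT6.Up
import Pool.Agent.Helper68.FTLimit

/-!
# Fault tolerant graphs of diameter six: the limit

(MP_1438b7_co.)
-/

set_option autoImplicit false

namespace Pool.Agent.Helper72.FT6

open Pool.Agent.Helper68 Filter Topology

theorem fhat_six_lower {n k N : ℕ} (hk : 2 ≤ k) (hn : k + 1 ≤ n) (hN : 1 ≤ N) :
    N * ((k * (k + 1) + 2) * n) ≤ (N * (k + 1) + (k * (k + 1) + 2)) * (2 * fhat n 6 k) +
      N * (2 * ((6 * N ^ 6 + 1) + (8 * N ^ 6 + 1) ^ (k + 1))) := by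
  classical
  obtain ⟨G, h1, h2⟩ := exists_opt (n := n) (d := 6) (k := k) (by omega)
  have h3 : G.edgeFinset.card = fhat n 6 k := by
    rw [← h2, ← SimpleGraph.coe_edgeFinset, Set.ncard_coe_finset]
  have h4 := lower6_viol (H := hubs G N) h1 hk (by simpa using hn)
  have h5 := card_Viol6 (H := hubs G N) (D := N) h1 (by omega) (by simpa using hn) hN
    (fun x hx => degree_le_of_notMem_hubs hx)
  have h6 := card_hubs_mul_le (G := G) N
  rw [h3] at h4 h6
  rw [Fintype.card_fin] at h4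
  generalize (6 * N ^ 6 + 1) + (8 * N ^ 6 + 1) ^ (k + 1) = C at h5 ⊢
  generalize (Viol6 G (hubs G N) k).card = v at h4 h5
  generalize (hubs G N).card = a at h4 h6
  generalize fhat n 6 k = f at h4 h6 ⊢
  have e1 : N * ((k * (k + 1) + 2) * n) ≤
      N * ((k + 1) * (2 * f) + (k * (k + 1) + 2) * a + 2 * C) := by
    apply Nat.mul_le_mul_left
    omega
  have e2 : (k * (k + 1) + 2) * (a * N) ≤ (k * (k + 1) + 2) * (2 * f) := Nat.mul_le_mul_left _ h6
  calc N * ((k * (k + 1) + 2) * n) ≤ N * ((k + 1) * (2 * f) + (k * (k + 1) + 2) * a + 2 * C) := e1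
    _ = N * ((k + 1) * (2 * f)) + (k * (k + 1) + 2) * (a * N) + N * (2 * C) := by ring
    _ ≤ N * ((k + 1) * (2 * f)) + (k * (k + 1) + 2) * (2 * f) + N * (2 * C) := by omega
    _ = _ := by ring

/-- a connected graph has at least `n - 1` edges -/
theorem fhat_one_lower {n : ℕ} (hn : 2 ≤ n) : n ≤ fhat n 6 1 + 1 := by
  classical
  obtain ⟨G, h1, h2⟩ := exists_opt (n := n) (d := 6) (k := 1) (by omega)
  have hconn : G.Connected := by
    have : Nonempty (Fin n) := ⟨⟨0, by omega⟩⟩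
    refine ⟨fun u v => ?_⟩
    obtain ⟨ℓ, -, p, h3, h4, h5, -⟩ := FaultTolerant.path h1 (le_refl 1) (by simpa using hn)
      (S := ∅) (by simp) (u := u) (v := v) (by simp) (by simp)
    have key : ∀ i ≤ ℓ, G.Reachable u (p i) := by
      intro i
      induction i with
      | zero => intro _; rw [h3]
      | succ i ih =>
        intro hi
        exact (ih (by omega)).trans (h5 i (by omega)).reachable
    rw [← h4]
    exact key ℓ (le_refl _)
  have h3 := hconn.card_vert_le_card_edgeSet_add_one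
  rw [Nat.card_eq_fintype_card, Fintype.card_fin, Nat.card_coe_set_eq, h2] at h3
  exact h3

/-- the asymptotic number of edges for `d = 6` -/
theorem tendsto_fhat_six {k : ℕ} (hk : 1 ≤ k) :
    Tendsto (fun n : ℕ => (fhat n 6 k : ℝ) / n) atTop
      (𝓝 (((k : ℝ) * (k + 1) + 2) / (2 * (k + 1)))) := by
  have hk1 : (0 : ℝ) < k + 1 := by positivity
  refine tendsto_of_bounds
    (U := (2 * ((k : ℝ) + 1) * (k * k) + 2 * (k + 1) * (k * (k * (k + 1)))) / (2 * (k + 1)))
    (c := ((k : ℝ) * (k + 1) + 2) / (k + 1)) (by positivity) (by positivity) ?_ ?_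
  · filter_upwards [eventually_ge_atTop k] with n hn
    have h1 := fhat_six_le hk hn
    have h2 : ((k : ℝ) + 1) * (2 * fhat n 6 k) ≤ (k * (k + 1) + 2) * n +
      (2 * (k + 1) * (k * k) + 2 * (k + 1) * (k * (k * (k + 1)))) := by exact_mod_cast h1
    rw [div_mul_eq_mul_div, ← add_div, le_div_iff₀ (by positivity)]
    linarith
  · intro N hN
    rcases Nat.lt_or_ge 1 k with hk2 | hk2
    · refine ⟨N * (2 * ((6 * N ^ 6 + 1) + (8 * N ^ 6 + 1) ^ (k + 1))) / (2 * (k + 1)), ?_⟩
      filter_upwards [eventually_ge_atTop (k + 1)] with n hn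
      have h1 := fhat_six_lower (n := n) (k := k) (N := N) (by omega) hn hN
      have h2 : (N : ℝ) * ((k * (k + 1) + 2) * n) ≤ (N * (k + 1) + (k * (k + 1) + 2)) *
        (2 * fhat n 6 k) + N * (2 * ((6 * N ^ 6 + 1) + (8 * N ^ 6 + 1) ^ (k + 1))) := by
        exact_mod_cast h1
      have e1 : (N : ℝ) * (((k : ℝ) * (k + 1) + 2) / (2 * (k + 1)) * n) =
          (N * ((k * (k + 1) + 2) * n)) / (2 * (k + 1)) := by
        ring
      have e2 : ((N : ℝ) + ((k : ℝ) * (k + 1) + 2) / (k + 1)) * fhat n 6 k =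
          ((N * (k + 1) + (k * (k + 1) + 2)) * (2 * fhat n 6 k)) / (2 * (k + 1)) := by
        field_simp
      rw [e1, e2, ← add_div]
      exact (div_le_div_iff_of_pos_right (by positivity)).mpr h2
    · obtain rfl : k = 1 := by omega
      refine ⟨N, ?_⟩
      filter_upwards [eventually_ge_atTop 2] with n hn
      have h1 := fhat_one_lower hn
      have h2 : (n : ℝ) ≤ fhat n 6 1 + 1 := by exact_mod_cast h1
      have h3 : (0 : ℝ) ≤ N := by positivity
      have h4 : (0 : ℝ) ≤ fhat n 6 1 := by positivity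
      have h5 := mul_le_mul_of_nonneg_left h2 h3
      norm_num
      nlinarith

theorem tendsto_six {k : ℕ} (hk : 1 ≤ k) :
    Tendsto (fun n : ℕ => phihat n 6 k / n) atTop (𝓝 (1 / ((k : ℝ) + 1))) := by
  have h2 := tendsto_phihat_of_fhat (tendsto_fhat_six hk)
  have h3 : ((k : ℝ) * (k + 1) + 2) / (2 * (k + 1)) - k / 2 = 1 / ((k : ℝ) + 1) := by
    field_simp
    ring
  rw [h3] at h2
  exact h2

end Pool.Agent.Helper72.FT6
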