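import Pool.Agent.Helper68.FTLower5

/-!
# Lower bound for `d = 6`: violating vertices
-/

namespace Pool.Agent.Helper72.FT6

open Pool.Agent.Helper68

section low

variable {V : Type} [Fintype V] [DecidableEq V] {G : SimpleGraph V} [DecidableRel G.Adj]

omit [Fintype V] [DecidableEq V] [DecidableRel G.Adj] in
/-- all exits of `u` but `w` are closed, and `w` is far from the hubs -/
theorem esc4 {H S : Finset V} {u w v : V} {ℓ : ℕ} {p : ℕ → V}
    (hp : PathAvoid G S ℓ p u v) (hN : ∀ y, G.Adj u y → y = w ∨ y ∈ S) (hu : u ∉ H) (hw : w ∉ H)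
    (hwX : ∀ y ∈ H, ¬ G.Adj w y)
    (hwy : ∀ y, G.Adj w y → ∀ z ∈ H, G.Adj y z → z ∈ S)
    {t : ℕ} (ht : t ≤ ℓ) (hpt : p t ∈ H) : 4 ≤ t := by
  obtain ⟨h0, -, h2, h3⟩ := hp
  by_contra hcon
  have ht0 : t ≠ 0 := by
    rintro rfl
    rw [h0] at hpt
    exact hu hpt
  have h1 : p 1 = w := by
    have h4 := h2 0 (by omega)
    rw [h0] at h4
    rcases hN _ h4 with h5 | h5
    · exact h5
    · exact absurd h5 (h3 1 (by omega))
  have ht1 : t ≠ 1 := by
    rintro rfl
    rw [h1] at hpt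
    exact hw hpt
  have ht2 : t ≠ 2 := by
    rintro rfl
    have h4 := h2 1 (by omega)
    rw [h1] at h4
    exact hwX _ hpt h4
  have e3 : t = 3 := by omega
  subst e3
  have h4 := h2 1 (by omega)
  rw [h1] at h4
  have h5 := h2 2 (by omega)
  exact h3 3 ht (hwy _ h4 _ hpt h5)

omit [Fintype V] [DecidableEq V] [DecidableRel G.Adj] in
theorem end2 {H S : Finset V} {u v : V} {ℓ : ℕ} {p : ℕ → V}
    (hp : PathAvoid G S ℓ p v u) (hv : v ∉ H) (hvX : ∀ y ∈ H, ¬ G.Adj v y)
    {t : ℕ} (ht : t ≤ ℓ) (hpt : p t ∈ H) : 2 ≤ t := by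
  obtain ⟨h0, -, h2, h3⟩ := hp
  by_contra hcon
  have ht0 : t ≠ 0 := by
    rintro rfl
    rw [h0] at hpt
    exact hv hpt
  have e1 : t = 1 := by omega
  subst e1
  have h4 := h2 0 (by omega)
  rw [h0] at h4
  exact hvX _ hpt h4

omit [Fintype V] [DecidableEq V] [DecidableRel G.Adj] in
theorem end3 {H S : Finset V} {u v : V} {ℓ : ℕ} {p : ℕ → V}
    (hp : PathAvoid G S ℓ p v u) (hv : v ∉ H) (hvX : ∀ y ∈ H, ¬ G.Adj v y)
    (hvy : ∀ y, G.Adj v y → ∀ z ∈ H, ¬ G.Adj y z)
    {t : ℕ} (ht : t ≤ ℓ) (hpt : p t ∈ H) : 3 ≤ t := by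
  have h5 := end2 hp hv hvX ht hpt
  obtain ⟨h0, -, h2, h3⟩ := hp
  by_contra hcon
  have e1 : t = 2 := by omega
  subst e1
  have h4 := h2 0 (by omega)
  rw [h0] at h4
  exact hvy _ h4 _ hpt (h2 1 (by omega))

theorem mem_Ball_of_adj {H : Finset V} {u v : V} (hu : u ∉ H) (hv : v ∉ H) (h : G.Adj u v)
    {d : ℕ} (hd : 1 ≤ d) : v ∈ Ball G H d u := by
  unfold Ball
  rw [Finset.mem_erase, Finset.mem_sdiff, Finset.mem_biUnion]
  refine ⟨fun h1 => h.ne h1.symm, ⟨1, ?_, ?_⟩, hv⟩
  · rw [Finset.mem_Icc]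
    exact ⟨le_refl 1, hd⟩
  · rw [R_one hu, SimpleGraph.mem_neighborFinset]
    exact h

/-- low vertices of degree `k` without hub neighbours, far from the hubs, with a neighbour far
from the hubs -/
def V0 (G : SimpleGraph V) (H : Finset V) : Set V :=
  {w | w ∉ H ∧ (∀ y ∈ H, ¬ G.Adj w y) ∧ (∀ y, G.Adj w y → ∀ z ∈ H, ¬ G.Adj y z) ∧
    ∃ y, G.Adj w y ∧ ∀ z, G.Adj y z → ∀ x ∈ H, ¬ G.Adj z x}

/-- low vertices without hub neighbours and with a neighbour `x` of degree `k` that is
the only possible neighbour with hub neighbours -/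
def V1 (G : SimpleGraph V) [DecidableRel G.Adj] (H : Finset V) (k : ℕ) : Set V :=
  {w | w ∉ H ∧ (∀ y ∈ H, ¬ G.Adj w y) ∧
    ∃ x, x ∉ H ∧ G.Adj w x ∧ G.degree x = k ∧ ∀ y, G.Adj w y → ∀ z ∈ H, G.Adj y z → y = x}

theorem card_V0 {k D : ℕ} {H : Finset V} (h : FaultTolerant G 6 k) (hk : 1 ≤ k)
    (hn : k + 1 ≤ Fintype.card V) (hD1 : 1 ≤ D) (hD : ∀ x ∉ H, G.degree x ≤ D)
    (s : Finset V) (hs : ∀ w ∈ s, w ∈ V0 G H) (hs' : ∀ w ∈ s, G.degree w = k) :
    s.card ≤ 6 * D ^ 6 + 1 := by
  rcases s.eq_empty_or_nonempty with rfl | ⟨w, hw⟩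
  · simp
  obtain ⟨hwH, hwX, hwy, y, hy1, hy2⟩ := hs w hw
  have hyH : y ∉ H := fun hyH => hwX y hyH hy1
  have hsub : s ⊆ insert w (Ball G H 6 w) := by
    intro v hv
    obtain ⟨hvH, hvX, hvy, -⟩ := hs v hv
    rw [Finset.mem_insert]
    by_cases hvw : v = w
    · exact Or.inl hvw
    right
    by_cases hvS : v ∈ (G.neighborFinset w).erase y
    · rw [Finset.mem_erase, SimpleGraph.mem_neighborFinset] at hvS
      exact mem_Ball_of_adj hwH hvH hvS.2 (by omega)
    · have hwS : w ∉ (G.neighborFinset w).erase y := by simp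
      have hcard : ((G.neighborFinset w).erase y).card ≤ k - 1 := by
        rw [Finset.card_erase_of_mem (by simpa using hy1),
          SimpleGraph.card_neighborFinset_eq_degree, hs' w hw]
      obtain ⟨ℓ, hℓ, p, hp⟩ := h.path hk hn hcard hwS hvS
      rcases path_cases (H := H) hp hℓ hwH hvH hvw with h1 | ⟨t, t', ht, ht', htt, h1, h2, h3, h3',
        h4, h5, h6, h7⟩
      · exact h1
      · exfalso
        have e1 := esc4 (H := H) (w := y) hp (by
            intro z hz
            by_cases hzy : z = y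
            · exact Or.inl hzy
            · right
              rw [Finset.mem_erase, SimpleGraph.mem_neighborFinset]
              exact ⟨hzy, hz⟩) hwH hyH (fun z hz => hwy y hy1 z hz)
            (fun z hz x hx hzx => absurd hzx (hy2 z hz x hx)) ht h1
        have e2 := end3 (H := H) hp.reverse hvH hvX hvy ht' h2
        omega
  refine (Finset.card_le_card hsub).trans ((Finset.card_insert_le _ _).trans ?_)
  have := card_Ball_le (G := G) hD1 hD 6 w
  omega

theorem card_V1 {k D : ℕ} {H : Finset V} (h : FaultTolerant G 6 k) (hk : 1 ≤ k)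
    (hn : k + 1 ≤ Fintype.card V) (hD1 : 1 ≤ D) (hD : ∀ x ∉ H, G.degree x ≤ D)
    (s : Finset V) (hs : ∀ w ∈ s, w ∈ V1 G H k) :
    s.card ≤ (8 * D ^ 6 + 1) ^ (k + 1) := by
  classical
  have hs2 : ∀ w ∈ s, ∃ x, x ∉ H ∧ G.Adj w x ∧ G.degree x = k ∧
      ∀ y, G.Adj w y → ∀ z ∈ H, G.Adj y z → y = x := fun w hw => (hs w hw).2.2
  choose! X hX1 hX2 hX3 hX4 using hs2
  refine setpair (fun _ => 0) (fun w => ((R G H 4 (X w) ∩ H) \ Xs G H (X w)) ∪
    (insert (X w) (Ball G H 6 (X w))).erase w) (8 * D ^ 6) (k + 1)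
    (fun w => insert w (Xs G H (X w))) _ ?_ ?_ ?_ ?_
  · intro w hw
    refine (Finset.card_insert_le _ _).trans ?_
    have h1 : (Xs G H (X w)).card ≤ k := by
      rw [← hX3 w hw, ← SimpleGraph.card_neighborFinset_eq_degree]
      exact Finset.card_le_card Finset.inter_subset_left
    omega
  · intro w hw
    refine (Finset.card_union_le _ _).trans ?_
    have h1 : ((R G H 4 (X w) ∩ H) \ Xs G H (X w)).card ≤ D ^ 4 :=
      (Finset.card_le_card (Finset.sdiff_subset.trans Finset.inter_subset_left)).trans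
        (card_R_le hD 4 (X w))
    have h2 := card_Ball_le (G := G) hD1 hD 6 (X w)
    have h3 : D ^ 4 ≤ D ^ 6 := Nat.pow_le_pow_right hD1 (by omega)
    have h4 : 1 ≤ D ^ 6 := Nat.one_le_pow _ _ hD1
    have h5 := Finset.card_le_card (Finset.erase_subset w (insert (X w) (Ball G H 6 (X w))))
    have h6 := Finset.card_insert_le (X w) (Ball G H 6 (X w))
    omega
  · intro w hw
    have hwH := (hs w hw).1
    rw [Finset.disjoint_left]
    intro x hx hx2
    rw [Finset.mem_insert] at hx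
    rw [Finset.mem_union, Finset.mem_sdiff, Finset.mem_erase] at hx2
    rcases hx with rfl | hx
    · rcases hx2 with hx2 | hx2
      · exact hwH (Finset.mem_inter.mp hx2.1).2
      · exact hx2.1 rfl
    · rcases hx2 with hx2 | hx2
      · exact hx2.2 hx
      · have hxH := (Finset.mem_inter.mp hx).2
        rw [Finset.mem_insert] at hx2
        rcases hx2.2 with h1 | h1
        · rw [h1] at hxH
          exact hX1 w hw hxH
        · unfold Ball at h1
          rw [Finset.mem_erase, Finset.mem_sdiff] at h1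
          exact h1.2.2 hxH
  · intro w hw v hv hwv _
    obtain ⟨hwH, hwX, -⟩ := hs w hw
    obtain ⟨hvH, hvX, -⟩ := hs v hv
    rw [Finset.not_disjoint_iff]
    by_cases hvx : v = X w
    · refine ⟨v, Finset.mem_insert_self _ _, Finset.mem_union_right _ ?_⟩
      rw [Finset.mem_erase, Finset.mem_insert]
      exact ⟨fun h1 => hwv h1.symm, Or.inl hvx⟩
    by_cases hvS : v ∈ (G.neighborFinset (X w)).erase w
    · refine ⟨v, Finset.mem_insert_self _ _, Finset.mem_union_right _ ?_⟩
      rw [Finset.mem_erase, SimpleGraph.mem_neighborFinset] at hvS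
      rw [Finset.mem_erase, Finset.mem_insert]
      exact ⟨hvS.1, Or.inr (mem_Ball_of_adj (hX1 w hw) hvH hvS.2 (by omega))⟩
    have hxS : X w ∉ (G.neighborFinset (X w)).erase w := by simp
    have hcard : ((G.neighborFinset (X w)).erase w).card ≤ k - 1 := by
      rw [Finset.card_erase_of_mem (by simpa using (hX2 w hw).symm),
        SimpleGraph.card_neighborFinset_eq_degree, hX3 w hw]
    obtain ⟨ℓ, hℓ, p, hp⟩ := h.path hk hn hcard hxS hvS
    rcases path_cases (H := H) hp hℓ (hX1 w hw) hvH hvx with h1 | ⟨t, t', ht, ht', htt, h1, h2, h3,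
      h3', h4, h5, h6, h7⟩
    · refine ⟨v, Finset.mem_insert_self _ _, Finset.mem_union_right _ ?_⟩
      rw [Finset.mem_erase, Finset.mem_insert]
      exact ⟨fun h1 => hwv h1.symm, Or.inr h1⟩
    · have hXS : ∀ z ∈ H, G.Adj (X w) z → z ∈ (G.neighborFinset (X w)).erase w := by
        intro z hz hxz
        rw [Finset.mem_erase, SimpleGraph.mem_neighborFinset]
        exact ⟨fun h => hwH (h ▸ hz), hxz⟩
      have e1 := esc4 (H := H) (w := w) hp (by
          intro z hz
          by_cases hzw : z = w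
          · exact Or.inl hzw
          · right
            rw [Finset.mem_erase, SimpleGraph.mem_neighborFinset]
            exact ⟨hzw, hz⟩) (hX1 w hw) hwH hwX
          (fun z hz x hx hzx => by
            have := hX4 w hw z hz x hx hzx
            rw [this] at hzx
            exact hXS x hx hzx) ht h1
      have e2 := end2 (H := H) hp.reverse hvH hvX ht' h2
      have f1 : t = 4 := by omega
      have f2 : t' = 2 := by omega
      have f3 : ℓ = 6 := by omega
      subst f1 f2 f3
      refine ⟨p 4, ?_, ?_⟩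
      · rw [Finset.mem_insert]
        right
        have g1 : G.Adj v (p 5) := by
          have := hp.2.2.1 5 (by omega)
          rw [hp.2.1] at this
          exact this.symm
        have g2 : G.Adj (p 5) (p 4) := (hp.2.2.1 4 (by omega)).symm
        have g3 := hX4 v hv _ g1 _ h1 g2
        rw [g3] at g2
        exact Finset.mem_inter.mpr ⟨by simpa using g2, h1⟩
      · rw [Finset.mem_union, Finset.mem_sdiff]
        left
        refine ⟨Finset.mem_inter.mpr ⟨h6, h1⟩, fun hx => h3 ?_⟩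
        have g4 := Finset.mem_inter.mp hx
        rw [SimpleGraph.mem_neighborFinset] at g4
        exact hXS _ h1 g4.1

end low

end Pool.Agent.Helper72.FT6
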